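import Pool.Agent.Q250.RPHalf2

/-!
MP_4155d9_nt, Q1: an explicit infinite family of sequences of positive integers with gcd 1 whose
odd densities tend to 1/2.
-/

set_option autoImplicit false

open Filter Topology

namespace Pool.Agent.Results.MP_4155d9_nt.HalfFamily

/-- `p_𝒜(n, k)`: the number of `k`-tuples `(c_1, …, c_k)` of non-negative integers with
`c_1 a_1 + ⋯ + c_k a_k = n`. The terms `a_1, a_2, a_3, …` of the sequence `𝒜` are written
`a 0, a 1, a 2, …`. -/
noncomputable def restrictedPartitions (a : ℕ → ℕ) (n k : ℕ) : ℕ :=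
  Nat.card {c : Fin k → ℕ // ∑ i : Fin k, c i * a i = n}

/-- The odd density of `p_𝒜(·, k)` exists and is equal to `δ`. -/
def HasOddDensity (a : ℕ → ℕ) (k : ℕ) (δ : ℝ) : Prop :=
  Tendsto (fun N : ℕ => ({n : ℕ | n ≤ N ∧ Odd (restrictedPartitions a n k)}.ncard : ℝ) / N) atTop
    (𝓝 δ)

/-- `lim_{k → ∞} δ_𝒜(k) = 1/2`. -/
def OddDensitiesTendToHalf (a : ℕ → ℕ) : Prop :=
  ∃ δ : ℕ → ℝ, (∀ k : ℕ, 1 ≤ k → HasOddDensity a k (δ k)) ∧ Tendsto δ atTop (𝓝 (1 / 2))

/-- The indices of the terms of `𝒜` that are odd, larger than `1`, and coprime to all the other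
terms of `𝒜`. -/
def isolated (a : ℕ → ℕ) : Set ℕ :=
  {i | Odd (a i) ∧ 1 < a i ∧ ∀ j, j ≠ i → Nat.Coprime (a i) (a j)}

/-- The family: all sequences of positive integers such that the sum of the reciprocals of the
terms that are odd, larger than `1` and coprime to all the other terms is infinite. -/
def family : Set (ℕ → ℕ) :=
  {a | (∀ i, 0 < a i) ∧ ¬ Summable (fun i : isolated a => (1 : ℝ) / a i)}

/-- The family is infinite: for every `m` it contains the sequence of all the primes except the
first `m + 1` ones, in increasing order. Every sequence of the family has gcd `1`, and its odd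
densities tend to `1/2`. -/
theorem result :
    (∀ m : ℕ, (fun i => Nat.nth Nat.Prime (m + 1 + i)) ∈ family) ∧
    Function.Injective (fun m : ℕ => fun i : ℕ => Nat.nth Nat.Prime (m + 1 + i)) ∧
    family.Infinite ∧
    ∀ a ∈ family, (∀ d : ℕ, (∀ i, d ∣ a i) → d = 1) ∧ OddDensitiesTendToHalf a := by
  have hinf : {p : ℕ | p.Prime}.Infinite := Nat.infinite_setOfPred_prime
  have hinj : Function.Injective (fun m : ℕ => fun i : ℕ => Nat.nth Nat.Prime (m + 1 + i)) := by
    intro m m' h
    have h0 := congrFun h 0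
    simp only [add_zero] at h0
    have := Nat.nth_injective hinf h0
    omega
  have hmem : ∀ m : ℕ, (fun i => Nat.nth Nat.Prime (m + 1 + i)) ∈ family := by
    intro m
    set a : ℕ → ℕ := fun i => Nat.nth Nat.Prime (m + 1 + i) with ha
    have hp : ∀ i, (a i).Prime := fun i => Nat.nth_mem_of_infinite hinf _
    have hiso : isolated a = Set.univ := by
      ext i
      simp only [isolated, Set.mem_univ, iff_true]
      refine ⟨?_, (hp i).one_lt, ?_⟩
      · apply (hp i).odd_of_ne_two
        intro h2
        have h3 : Nat.nth Nat.Prime 0 < a i := Nat.nth_strictMono hinf (by omega)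
        rw [Nat.nth_prime_zero_eq_two] at h3
        omega
      · intro j hji
        rw [Nat.coprime_primes (hp i) (hp j)]
        intro h
        have := Nat.nth_injective hinf h
        omega
    refine ⟨fun i => (hp i).pos, ?_⟩
    rw [hiso]
    intro hs
    have hs1 : Summable (fun i : ℕ => (1 : ℝ) / a i) := by
      have := (Equiv.Set.univ ℕ).symm.summable_iff.2 hs
      exact this
    have hs2 : Summable (fun i : ℕ => (1 : ℝ) / (Nat.nth Nat.Prime (i + (m + 1)) : ℕ)) := by
      refine hs1.congr fun i => ?_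
      simp only [ha]
      rw [add_comm]
    have hs3 : Summable (fun i : ℕ => (1 : ℝ) / (Nat.nth Nat.Prime i : ℕ)) :=
      (summable_nat_add_iff (f := fun i : ℕ => (1 : ℝ) / (Nat.nth Nat.Prime i : ℕ)) (m + 1)).1 hs2
    have hs4 : Summable (Set.indicator {p : ℕ | p.Prime} (fun n : ℕ => (1 : ℝ) / n)) := by
      rw [← (Nat.nth_injective hinf).summable_iff]
      · refine hs3.congr fun i => ?_
        rw [Function.comp_apply, Set.indicator_of_mem]
        exact Nat.nth_mem_of_infinite hinf i
      · intro x hx
        rw [Nat.range_nth_of_infinite hinf] at hx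
        exact Set.indicator_of_notMem hx _
    exact not_summable_one_div_on_primes hs4
  refine ⟨hmem, hinj, ?_, ?_⟩
  · exact Set.infinite_of_injective_forall_mem hinj hmem
  · rintro a ⟨ha, hs⟩
    refine ⟨?_, Q250.RP.tendsto_half a ha hs⟩
    intro d hd
    obtain ⟨i, hi⟩ : (isolated a).Nonempty := by
      rw [Set.nonempty_iff_ne_empty]
      intro h
      apply hs
      rw [h]
      exact (hasSum_empty).summable
    have h1 := hi.2.2 (i + 1) (by omega)
    have h2 : d ∣ Nat.gcd (a i) (a (i + 1)) := Nat.dvd_gcd (hd i) (hd (i + 1))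
    rw [h1] at h2
    exact Nat.dvd_one.1 h2

end Pool.Agent.Results.MP_4155d9_nt.HalfFamily
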